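import Mathlib
import Pool.Agent.MP_8604ae_co.Defs
import Pool.Agent.FacX.Final
import Pool.Agent.FacX.Cospec

/-!
# The extreme points of the hull of Laplacian spectra are the threshold spectra

For every `n ≥ 1`: (1) the extreme points of the convex hull `P n` of the Laplacian spectra of the
graphs on `n` vertices are exactly the spectra of the threshold graphs; (2) the spectrum of a graph
`G` on `n` vertices is an extreme point of `P n` iff `G` is a threshold graph; (3) `P n` is the set
of the nonincreasing `x` with last entry `0` such that
`(x_1 + ... + x_p) + (x_1 + ... + x_q) ≤ (x_1 + ... + x_n) + p (q + 1)` for `1 ≤ p ≤ q < n`.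

Proof of the inequalities (files `Pool/Agent/FacX`). For a subspace `X` of dimension `p` of the
space of vectors with sum zero there is a projection `A` (not symmetric) with kernel orthogonal to
`X`, column sums `0` and `0 ≤ A i i - A i j ≤ 1` for all `i`, `j`: its range is spanned by the
differences `e i - e j` over a family of `p` pairs with maximal determinant. For two such
projections `∑ (A i i - A i j) (B j j - B j i) = tr A tr B + tr (A B)`. If `X` is spanned by the
first `p` eigenvectors and `Y` by the first `q ≥ p` ones, then `A B = A`, and the inequality is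
`0 ≤ ∑ (1 - a i j) (1 - b j i)` (edges) `+ ∑ a i j * b j i` (non-edges), `a i j = A i i - A i j`,
`b i j = B i i - B i j`.
-/

namespace Pool.Agent.Results.MP_8604ae_co.ExtremePoints

open Pool.Agent.MP_8604ae_co

theorem result (n : ℕ) (hn : 1 ≤ n) :
    (P n).extremePoints ℝ = thresholdSpectra n ∧
    (∀ (G : SimpleGraph (Fin n)) (x : Fin n → ℝ), IsSpectrum G x →
      (x ∈ (P n).extremePoints ℝ ↔ IsThreshold G)) ∧
    P n = {x : Fin n → ℝ | Antitone x ∧ (∀ i : Fin n, (i : ℕ) + 1 = n → x i = 0) ∧ Ineq x} := by
  refine ⟨Pool.Agent.FacX.extremePoints_eq n hn, fun G x hx => ?_, Pool.Agent.FacX.P_eq n hn⟩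
  rw [Pool.Agent.FacX.extremePoints_eq n hn]
  exact Pool.Agent.FacX.mem_thresholdSpectra_iff hx

end Pool.Agent.Results.MP_8604ae_co.ExtremePoints
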